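import Mathlib

/-!
# MP_bfacb1_co: colour counts of proper colourings avoiding rainbow copies

`K(G,H)` is not always an interval: for `G = K₅` and `H` the house (a 4-cycle with a triangle on
one of its edges) `K(K₅, house) = {5, 7}`.
-/

namespace Pool.Agent.Results.MP_bfacb1_co.HouseGap

open SimpleGraph

section Defs
variable {V W C : Type*}

/-- `c` is a proper edge-colouring of `G`: two different edges with a common vertex get
different colours. -/
def IsProper (G : SimpleGraph V) (c : G.edgeSet → C) : Prop :=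
  ∀ e f : G.edgeSet, e ≠ f → (∃ v : V, v ∈ (e : Sym2 V) ∧ v ∈ (f : Sym2 V)) → c e ≠ c f

/-- Some copy of `H` in `G` (a subgraph `G'` of `G` isomorphic to `H`) is rainbow under `c`:
different edges of `G'` have different colours. -/
def HasRainbowCopy (G : SimpleGraph V) (H : SimpleGraph W) (c : G.edgeSet → C) : Prop :=
  ∃ G' : G.Subgraph, Nonempty (H ≃g G'.coe) ∧
    ∀ e f : G.edgeSet, (e : Sym2 V) ∈ G'.edgeSet → (f : Sym2 V) ∈ G'.edgeSet → e ≠ f → c e ≠ c f

/-- The set of `k ≥ 1` such that `G` has a surjective proper `k`-edge-colouring without a rainbow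
copy of `H`. -/
def K (G : SimpleGraph V) (H : SimpleGraph W) : Set ℕ :=
  {k | 1 ≤ k ∧ ∃ c : G.edgeSet → Fin k,
    Function.Surjective c ∧ IsProper G c ∧ ¬ HasRainbowCopy G H c}

/-- A set of natural numbers is an interval: whenever `a < b < c` with `a` and `c` in `S`, also `b`
is in `S`. -/
def IsIntervalSet (S : Set ℕ) : Prop := ∀ a b c : ℕ, a < b → b < c → a ∈ S → c ∈ S → b ∈ S

end Defs

/-- The house: the 4-cycle `0 1 2 3` and the vertex `4` joined to `0` and `1`. -/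
def house : SimpleGraph (Fin 5) :=
  SimpleGraph.fromEdgeSet {s(0, 1), s(1, 2), s(2, 3), s(0, 3), s(0, 4), s(1, 4)}

/-- The complete graph on five vertices. -/
abbrev K5 : SimpleGraph (Fin 5) := ⊤

/-! ### bookkeeping -/

/-- the six edges of the house -/
def hE : List (Fin 5 × Fin 5) := [(0, 1), (1, 2), (2, 3), (0, 3), (0, 4), (1, 4)]

/-- the ten edges of `K₅` -/
def E : Fin 10 → Fin 5 × Fin 5 :=
  ![(0, 1), (0, 2), (0, 3), (0, 4), (1, 2), (1, 3), (1, 4), (2, 3), (2, 4), (3, 4)]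

theorem E_ne (i : Fin 10) : (E i).1 ≠ (E i).2 := by
  revert i; decide

/-- the edge number `i` -/
def ed (i : Fin 10) : K5.edgeSet := ⟨s((E i).1, (E i).2), by
  simp only [mem_edgeSet, top_adj]; exact E_ne i⟩

theorem ed_inj : Function.Injective ed := by
  intro i j h
  have : s((E i).1, (E i).2) = s((E j).1, (E j).2) := congrArg Subtype.val h
  revert this
  revert i j
  decide

theorem ed_surj : Function.Surjective ed := by
  rintro ⟨e, he⟩
  induction e using Sym2.ind with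
  | _ a b =>
    have hab : a ≠ b := by simpa using he
    have : ∃ i, s((E i).1, (E i).2) = s(a, b) := by
      revert a b
      decide
    obtain ⟨i, hi⟩ := this
    exact ⟨i, Subtype.ext hi⟩

/-- do the edges `i` and `j` meet? -/
def meet (i j : Fin 10) : Bool :=
  (E i).1 == (E j).1 || (E i).1 == (E j).2 || (E i).2 == (E j).1 || (E i).2 == (E j).2

theorem proper_meet {C : Type*} {c : K5.edgeSet → C} (hc : IsProper K5 c) {i j : Fin 10}
    (hij : i ≠ j) (hm : meet i j = true) : c (ed i) ≠ c (ed j) := by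
  apply hc _ _ (fun h => hij (ed_inj h))
  simp only [meet, Bool.or_eq_true, beq_iff_eq] at hm
  rcases hm with ((h | h) | h) | h
  · exact ⟨(E i).1, by simp [ed], by simp [ed, h]⟩
  · exact ⟨(E i).1, by simp [ed], by simp [ed, h]⟩
  · exact ⟨(E i).2, by simp [ed], by simp [ed, h]⟩
  · exact ⟨(E i).2, by simp [ed], by simp [ed, h]⟩

/-- number of the edge `ab` -/
def num (a b : Fin 5) : Fin 10 :=
  ((List.finRange 10).find? (fun i => (E i == (a, b)) || (E i == (b, a)))).getD 0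

theorem num_spec (a b : Fin 5) (h : a ≠ b) : (ed (num a b) : Sym2 (Fin 5)) = s(a, b) := by
  show s((E (num a b)).1, (E (num a b)).2) = s(a, b)
  revert a b
  decide

theorem house_adj (a b : Fin 5) : house.Adj a b ↔ (a, b) ∈ hE ∨ (b, a) ∈ hE := by
  unfold house hE
  rw [SimpleGraph.fromEdgeSet_adj]
  revert a b
  decide

/-- a rainbow house from a vertex map -/
theorem rainbow_of {C : Type*} (c : K5.edgeSet → C) (f : Fin 5 → Fin 5)
    (hf : Function.Injective f)
    (h : ∀ p ∈ hE, ∀ q ∈ hE, num (f p.1) (f p.2) ≠ num (f q.1) (f q.2) →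
      c (ed (num (f p.1) (f p.2))) ≠ c (ed (num (f q.1) (f q.2)))) :
    HasRainbowCopy K5 house c := by
  have hne : ∀ a b, house.Adj a b → f a ≠ f b := fun a b hab h' => hab.ne (hf h')
  let φ : Copy house K5 := ⟨⟨f, fun {a b} hab => by simpa using hne a b hab⟩, hf⟩
  refine ⟨φ.toSubgraph, ⟨φ.isoToSubgraph⟩, ?_⟩
  have key : ∀ e : K5.edgeSet, (e : Sym2 (Fin 5)) ∈ φ.toSubgraph.edgeSet →
      ∃ p ∈ hE, e = ed (num (f p.1) (f p.2)) := by
    rintro e he
    have he' : (e : Sym2 (Fin 5)) ∈ Sym2.map f '' (⊤ : house.Subgraph).edgeSet := by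
      have := SimpleGraph.Subgraph.edgeSet_map φ.toHom (⊤ : house.Subgraph)
      rw [this] at he
      exact he
    obtain ⟨x, hx, hxe⟩ := he'
    induction x using Sym2.ind with
    | _ a b =>
      have hab : house.Adj a b := by simpa using hx
      have hx2 : s(f a, f b) = (e : Sym2 (Fin 5)) := by simpa using hxe
      rcases (house_adj a b).1 hab with h1 | h1
      · refine ⟨(a, b), h1, Subtype.ext ?_⟩
        rw [num_spec _ _ (hne a b hab)]; exact hx2.symm
      · refine ⟨(b, a), h1, Subtype.ext ?_⟩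
        rw [num_spec _ _ (hne b a hab.symm), Sym2.eq_swap]; exact hx2.symm
  intro e g he hg heg
  obtain ⟨p, hp, rfl⟩ := key e he
  obtain ⟨q, hq, rfl⟩ := key g hg
  exact h p hp q hq (fun h' => heg (by rw [h']))

/-- a rainbow house gives a vertex map -/
theorem map_of {C : Type*} (c : K5.edgeSet → C) (h : HasRainbowCopy K5 house c) :
    ∃ f : Fin 5 → Fin 5, Function.Injective f ∧ ∀ p ∈ hE, ∀ q ∈ hE,
      num (f p.1) (f p.2) ≠ num (f q.1) (f q.2) →
      c (ed (num (f p.1) (f p.2))) ≠ c (ed (num (f q.1) (f q.2))) := by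
  obtain ⟨G', ⟨φ⟩, hr⟩ := h
  refine ⟨fun i => (φ i : Fin 5), fun i j hij => φ.injective (Subtype.ext hij), ?_⟩
  have key : ∀ p ∈ hE, (ed (num (φ p.1 : Fin 5) (φ p.2 : Fin 5)) : Sym2 (Fin 5)) ∈ G'.edgeSet := by
    intro p hp
    have h1 : house.Adj p.1 p.2 := (house_adj _ _).2 (Or.inl hp)
    have h2 : G'.coe.Adj (φ p.1) (φ p.2) := φ.map_adj_iff.2 h1
    have h3 : G'.Adj (φ p.1 : Fin 5) (φ p.2 : Fin 5) := h2
    rw [num_spec _ _ h3.ne]
    exact h3
  intro p hp q hq hne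
  exact hr _ _ (key p hp) (key q hq) (fun h' => hne (ed_inj h'))

/-! ### the finite search -/

/-- the pairs of disjoint edges -/
def P : List (Fin 10 × Fin 10) :=
  ((List.finRange 10) ×ˢ (List.finRange 10)).filter (fun p => decide (p.1 < p.2) && !meet p.1 p.2)

theorem mem_P (i j : Fin 10) : (i, j) ∈ P ↔ i < j ∧ meet i j = false := by
  simp [P]

def conf (p q : Fin 10 × Fin 10) : Bool :=
  p.1 == q.1 || p.1 == q.2 || p.2 == q.1 || p.2 == q.2

def srch (final : List (Fin 10 × Fin 10) → Bool) :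
    List (Fin 10 × Fin 10) → List (Fin 10 × Fin 10) → Bool
  | [], ch => final ch
  | p :: ps, ch => srch final ps ch && (ch.any (conf p) || srch final ps (p :: ch))

theorem srch_sound (final : List (Fin 10 × Fin 10) → Bool) {C : Type*} [DecidableEq C]
    (d : Fin 10 → C) :
    ∀ ps ch : List (Fin 10 × Fin 10),
      (∀ p ∈ ps, ∀ q ∈ ch, d p.1 = d p.2 → conf p q = false) →
      ps.Pairwise (fun p q => d p.1 = d p.2 → d q.1 = d q.2 → conf q p = false) →
      srch final ps ch = true →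
      ∃ tot : List (Fin 10 × Fin 10), final tot = true ∧
        (∀ q ∈ tot, q ∈ ch ∨ (q ∈ ps ∧ d q.1 = d q.2)) ∧ (∀ q ∈ ch, q ∈ tot) ∧
        (∀ q ∈ ps, d q.1 = d q.2 → q ∈ tot) := by
  intro ps
  induction ps with
  | nil =>
    intro ch _ _ h
    exact ⟨ch, h, fun q hq => Or.inl hq, fun q hq => hq, fun q hq => by simp at hq⟩
  | cons p ps ih =>
    intro ch h1 h2 h
    rw [List.pairwise_cons] at h2
    simp only [srch, Bool.and_eq_true, Bool.or_eq_true] at h
    by_cases hp : d p.1 = d p.2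
    · have hno : ¬ (ch.any (conf p) = true) := by
        intro hany
        rw [List.any_eq_true] at hany
        obtain ⟨q, hq, hpq⟩ := hany
        rw [h1 p (by simp) q hq hp] at hpq
        exact absurd hpq (by simp)
      have h3 := h.2.resolve_left hno
      obtain ⟨tot, t1, t2, t3, t4⟩ := ih (p :: ch) (by
        intro q hq r hr hqe
        rcases List.mem_cons.1 hr with rfl | hr
        · exact h2.1 q hq hp hqe
        · exact h1 q (by simp [hq]) r hr hqe) h2.2 h3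
      refine ⟨tot, t1, ?_, fun q hq => t3 q (by simp [hq]), ?_⟩
      · intro q hq
        rcases t2 q hq with h4 | h4
        · rcases List.mem_cons.1 h4 with rfl | h5
          · exact Or.inr ⟨by simp, hp⟩
          · exact Or.inl h5
        · exact Or.inr ⟨by simp [h4.1], h4.2⟩
      · intro q hq hqe
        rcases List.mem_cons.1 hq with rfl | h5
        · exact t3 _ (by simp)
        · exact t4 q h5 hqe
    · obtain ⟨tot, t1, t2, t3, t4⟩ := ih ch (by
        intro q hq r hr hqe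
        exact h1 q (by simp [hq]) r hr hqe) h2.2 h.1
      refine ⟨tot, t1, ?_, t3, ?_⟩
      · intro q hq
        rcases t2 q hq with h4 | h4
        · exact Or.inl h4
        · exact Or.inr ⟨by simp [h4.1], h4.2⟩
      · intro q hq hqe
        rcases List.mem_cons.1 hq with rfl | h5
        · exact absurd hqe hp
        · exact t4 q h5 hqe

/-- the vertex maps -/
def vmap (l : List (Fin 5)) : Fin 5 → Fin 5 := fun i => l.getD i 0

/-- edges of a copy of the house -/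
def L (f : Fin 5 → Fin 5) : List (Fin 10) := hE.map (fun p => num (f p.1) (f p.2))

def cnt (ch : List (Fin 10 × Fin 10)) : ℕ :=
  (Finset.univ.filter (fun j : Fin 10 => ∀ p ∈ ch, p.2 ≠ j)).card

def good (hs : List (List (Fin 5) × List (Fin 10))) (ch : List (Fin 10 × Fin 10)) : Bool :=
  cnt ch == 5 || cnt ch == 7 ||
    hs.any (fun h => ch.all (fun p => !(h.2.contains p.1 && h.2.contains p.2)))

/-- the 60 copies of the house in `K₅` (vertex map, edge numbers) -/
def hs : List (List (Fin 5) × List (Fin 10)) :=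
  [([0, 1, 2, 3, 4], [0, 4, 7, 2, 3, 6]),
   ([0, 1, 2, 4, 3], [0, 4, 8, 3, 2, 5]),
   ([0, 1, 3, 2, 4], [0, 5, 7, 1, 3, 6]),
   ([0, 1, 3, 4, 2], [0, 5, 9, 3, 1, 4]),
   ([0, 1, 4, 2, 3], [0, 6, 8, 1, 2, 5]),
   ([0, 1, 4, 3, 2], [0, 6, 9, 2, 1, 4]),
   ([0, 2, 1, 3, 4], [1, 4, 5, 2, 3, 8]),
   ([0, 2, 1, 4, 3], [1, 4, 6, 3, 2, 7]),
   ([0, 2, 3, 1, 4], [1, 7, 5, 0, 3, 8]),
   ([0, 2, 3, 4, 1], [1, 7, 9, 3, 0, 4]),
   ([0, 2, 4, 1, 3], [1, 8, 6, 0, 2, 7]),
   ([0, 2, 4, 3, 1], [1, 8, 9, 2, 0, 4]),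
   ([0, 3, 1, 2, 4], [2, 5, 4, 1, 3, 9]),
   ([0, 3, 1, 4, 2], [2, 5, 6, 3, 1, 7]),
   ([0, 3, 2, 1, 4], [2, 7, 4, 0, 3, 9]),
   ([0, 3, 2, 4, 1], [2, 7, 8, 3, 0, 5]),
   ([0, 3, 4, 1, 2], [2, 9, 6, 0, 1, 7]),
   ([0, 3, 4, 2, 1], [2, 9, 8, 1, 0, 5]),
   ([0, 4, 1, 2, 3], [3, 6, 4, 1, 2, 9]),
   ([0, 4, 1, 3, 2], [3, 6, 5, 2, 1, 8]),
   ([0, 4, 2, 1, 3], [3, 8, 4, 0, 2, 9]),
   ([0, 4, 2, 3, 1], [3, 8, 7, 2, 0, 6]),
   ([0, 4, 3, 1, 2], [3, 9, 5, 0, 1, 8]),
   ([0, 4, 3, 2, 1], [3, 9, 7, 1, 0, 6]),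
   ([1, 2, 0, 3, 4], [4, 1, 2, 5, 6, 8]),
   ([1, 2, 0, 4, 3], [4, 1, 3, 6, 5, 7]),
   ([1, 2, 3, 0, 4], [4, 7, 2, 0, 6, 8]),
   ([1, 2, 3, 4, 0], [4, 7, 9, 6, 0, 1]),
   ([1, 2, 4, 0, 3], [4, 8, 3, 0, 5, 7]),
   ([1, 2, 4, 3, 0], [4, 8, 9, 5, 0, 1]),
   ([1, 3, 0, 2, 4], [5, 2, 1, 4, 6, 9]),
   ([1, 3, 0, 4, 2], [5, 2, 3, 6, 4, 7]),
   ([1, 3, 2, 0, 4], [5, 7, 1, 0, 6, 9]),
   ([1, 3, 2, 4, 0], [5, 7, 8, 6, 0, 2]),
   ([1, 3, 4, 0, 2], [5, 9, 3, 0, 4, 7]),
   ([1, 3, 4, 2, 0], [5, 9, 8, 4, 0, 2]),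
   ([1, 4, 0, 2, 3], [6, 3, 1, 4, 5, 9]),
   ([1, 4, 0, 3, 2], [6, 3, 2, 5, 4, 8]),
   ([1, 4, 2, 0, 3], [6, 8, 1, 0, 5, 9]),
   ([1, 4, 2, 3, 0], [6, 8, 7, 5, 0, 3]),
   ([1, 4, 3, 0, 2], [6, 9, 2, 0, 4, 8]),
   ([1, 4, 3, 2, 0], [6, 9, 7, 4, 0, 3]),
   ([2, 3, 0, 1, 4], [7, 2, 0, 4, 8, 9]),
   ([2, 3, 0, 4, 1], [7, 2, 3, 8, 4, 5]),
   ([2, 3, 1, 0, 4], [7, 5, 0, 1, 8, 9]),
   ([2, 3, 1, 4, 0], [7, 5, 6, 8, 1, 2]),
   ([2, 3, 4, 0, 1], [7, 9, 3, 1, 4, 5]),
   ([2, 3, 4, 1, 0], [7, 9, 6, 4, 1, 2]),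
   ([2, 4, 0, 1, 3], [8, 3, 0, 4, 7, 9]),
   ([2, 4, 0, 3, 1], [8, 3, 2, 7, 4, 6]),
   ([2, 4, 1, 0, 3], [8, 6, 0, 1, 7, 9]),
   ([2, 4, 1, 3, 0], [8, 6, 5, 7, 1, 3]),
   ([2, 4, 3, 0, 1], [8, 9, 2, 1, 4, 6]),
   ([2, 4, 3, 1, 0], [8, 9, 5, 4, 1, 3]),
   ([3, 4, 0, 1, 2], [9, 3, 0, 5, 7, 8]),
   ([3, 4, 0, 2, 1], [9, 3, 1, 7, 5, 6]),
   ([3, 4, 1, 0, 2], [9, 6, 0, 2, 7, 8]),
   ([3, 4, 1, 2, 0], [9, 6, 4, 7, 2, 3]),
   ([3, 4, 2, 0, 1], [9, 8, 1, 2, 5, 6]),
   ([3, 4, 2, 1, 0], [9, 8, 4, 5, 2, 3])]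

theorem hs_spec : ∀ h ∈ hs, Function.Injective (vmap h.1) ∧ L (vmap h.1) = h.2 := by
  decide +kernel

theorem check : srch (good hs) P [] = true := by
  decide +kernel

theorem P_pairwise : P.Pairwise (fun p q => p ≠ q) := by
  decide +kernel

theorem conf_meet : ∀ p ∈ P, ∀ q ∈ P, p ≠ q → conf p q = true →
    ((p.1 = q.1 ∧ meet p.2 q.2 = true ∧ p.2 ≠ q.2) ∨ (p.1 = q.2 ∧ meet p.2 q.1 = true ∧ p.2 ≠ q.1) ∨
     (p.2 = q.1 ∧ meet p.1 q.2 = true ∧ p.1 ≠ q.2) ∨ (p.2 = q.2 ∧ meet p.1 q.1 = true ∧ p.1 ≠ q.1)) := by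
  decide +kernel

theorem main {k : ℕ} (c : K5.edgeSet → Fin k) (hs' : Function.Surjective c)
    (hc : IsProper K5 c) (hn : ¬ HasRainbowCopy K5 house c) : k = 5 ∨ k = 7 := by
  set d : Fin 10 → Fin k := fun i => c (ed i) with hd
  have dmeet : ∀ i j, i ≠ j → meet i j = true → d i ≠ d j :=
    fun i j hij hm => proper_meet hc hij hm
  have dsurj : Function.Surjective d := fun x => by
    obtain ⟨e, rfl⟩ := hs' x
    obtain ⟨i, rfl⟩ := ed_surj e
    exact ⟨i, rfl⟩
  have noconf : ∀ p ∈ P, ∀ q ∈ P, p ≠ q → d p.1 = d p.2 → d q.1 = d q.2 → conf p q = false := by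
    intro p hp q hq hpq h1 h2
    by_contra hcf
    have hcf' : conf p q = true := by simpa using hcf
    rcases conf_meet p hp q hq hpq hcf' with ⟨h, hm, hne⟩ | ⟨h, hm, hne⟩ | ⟨h, hm, hne⟩ | ⟨h, hm, hne⟩
    · exact dmeet _ _ hne hm (by rw [← h1, h, h2])
    · exact dmeet _ _ hne hm (by rw [← h1, h, h2])
    · exact dmeet _ _ hne hm (by rw [h1, h, h2])
    · exact dmeet _ _ hne hm (by rw [h1, h, h2])
  obtain ⟨tot, t1, t2, -, t4⟩ := srch_sound (good hs) d P [] (by simp) (by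
    have := P_pairwise
    refine List.Pairwise.imp_of_mem ?_ this
    intro p q hp hq hpq h1 h2
    exact noconf q hq p hp hpq.symm h2 h1) check
  have t2' : ∀ q ∈ tot, q ∈ P ∧ d q.1 = d q.2 := fun q hq => by
    rcases t2 q hq with h | h
    · simp at h
    · exact h
  have hcard : cnt tot = k := by
    have himg : (Finset.univ.filter (fun j : Fin 10 => ∀ p ∈ tot, p.2 ≠ j)).image d
        = Finset.univ := by
      apply Finset.eq_univ_of_forall
      intro x
      obtain ⟨i, hi⟩ := dsurj x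
      have hne : (Finset.univ.filter (fun j : Fin 10 => d j = x)).Nonempty :=
        ⟨i, by simp [hi]⟩
      set j := (Finset.univ.filter (fun j : Fin 10 => d j = x)).min' hne with hj
      have hjm : j ∈ Finset.univ.filter (fun j : Fin 10 => d j = x) := Finset.min'_mem _ _
      have hjx : d j = x := by simpa using hjm
      refine Finset.mem_image.2 ⟨j, ?_, hjx⟩
      rw [Finset.mem_filter]
      refine ⟨Finset.mem_univ _, ?_⟩
      intro p hp hpj
      have h := t2' _ hp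
      have hab := ((mem_P p.1 p.2).1 h.1).1
      have h2 : d p.1 = x := by rw [h.2, hpj]; exact hjx
      have h3 : j ≤ p.1 := Finset.min'_le _ _ (by simp [h2])
      rw [hpj] at hab
      exact absurd hab (not_lt.2 h3)
    have hinj : Set.InjOn d (Finset.univ.filter (fun j : Fin 10 => ∀ p ∈ tot, p.2 ≠ j)) := by
      have key : ∀ i j : Fin 10, i < j → (∀ p ∈ tot, p.2 ≠ j) → d i ≠ d j := by
        intro i j hij hj heq
        have hm : meet i j = false := by
          by_contra hm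
          exact dmeet i j hij.ne (by simpa using hm) heq
        exact hj (i, j) (t4 (i, j) ((mem_P i j).2 ⟨hij, hm⟩) heq) rfl
      intro i hi j hj hij
      simp only [Finset.coe_filter, Finset.mem_univ, true_and, Set.mem_ofPred_eq] at hi hj
      rcases lt_trichotomy i j with h | h | h
      · exact absurd hij (key i j h hj)
      · exact h
      · exact absurd hij.symm (key j i h hi)
    have := Finset.card_image_of_injOn hinj
    rw [himg, Finset.card_univ, Fintype.card_fin] at this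
    exact this.symm
  simp only [good, Bool.or_eq_true, beq_iff_eq, hcard] at t1
  rcases t1 with (h | h) | h
  · exact Or.inl h
  · exact Or.inr h
  · exfalso
    rw [List.any_eq_true] at h
    obtain ⟨q, hq, hall⟩ := h
    obtain ⟨hinj, hL⟩ := hs_spec q hq
    apply hn
    refine rainbow_of c (vmap q.1) hinj ?_
    intro p hp r hr hne heq
    set i := num (vmap q.1 p.1) (vmap q.1 p.2) with hi
    set j := num (vmap q.1 r.1) (vmap q.1 r.2) with hj
    have hiL : i ∈ q.2 := by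
      rw [← hL]; exact List.mem_map.2 ⟨p, hp, rfl⟩
    have hjL : j ∈ q.2 := by
      rw [← hL]; exact List.mem_map.2 ⟨r, hr, rfl⟩
    have hm : ∀ a b : Fin 10, a < b → a ∈ q.2 → b ∈ q.2 → d a ≠ d b := by
      intro a b hab ha hb hdab
      have hmt : meet a b = false := by
        by_contra hm
        exact dmeet a b hab.ne (by simpa using hm) hdab
      have hmem := t4 (a, b) ((mem_P a b).2 ⟨hab, hmt⟩) hdab
      rw [List.all_eq_true] at hall
      have := hall _ hmem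
      simp [ha, hb] at this
    rcases lt_trichotomy i j with h | h | h
    · exact hm i j h hiL hjL heq
    · exact hne h
    · exact hm j i h hjL hiL heq.symm

/-! ### the two colourings -/

def d7 : Fin 10 → Fin 7 := ![0, 1, 2, 3, 2, 1, 4, 0, 5, 6]
def d5 : Fin 10 → Fin 5 := ![1, 2, 3, 4, 3, 4, 0, 0, 1, 2]

noncomputable def edE : Fin 10 ≃ K5.edgeSet := Equiv.ofBijective ed ⟨ed_inj, ed_surj⟩

theorem share_meet (i j : Fin 10) (h : ∃ v : Fin 5, v ∈ (ed i : Sym2 (Fin 5)) ∧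
    v ∈ (ed j : Sym2 (Fin 5))) : meet i j = true := by
  obtain ⟨v, h1, h2⟩ := h
  simp only [ed, Sym2.mem_iff] at h1 h2
  simp only [meet, Bool.or_eq_true, beq_iff_eq]
  rcases h1 with h1 | h1 <;> rcases h2 with h2 | h2 <;> simp [← h1, ← h2]

theorem mem_K_of {k : ℕ} (hk : 1 ≤ k) (d : Fin 10 → Fin k) (hsj : ∀ x, ∃ i, d i = x)
    (hp : ∀ i j, i ≠ j → meet i j = true → d i ≠ d j)
    (hn : ∀ f : Fin 5 → Fin 5, Function.Injective f → ∃ p ∈ hE, ∃ q ∈ hE,
      num (f p.1) (f p.2) ≠ num (f q.1) (f q.2) ∧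
      d (num (f p.1) (f p.2)) = d (num (f q.1) (f q.2))) : k ∈ K K5 house := by
  refine ⟨hk, fun e => d (edE.symm e), ?_, ?_, ?_⟩
  · intro x
    obtain ⟨i, hi⟩ := hsj x
    exact ⟨edE i, by simp [hi]⟩
  · intro e f hef hv
    obtain ⟨i, rfl⟩ := edE.surjective e
    obtain ⟨j, rfl⟩ := edE.surjective f
    have hij : i ≠ j := fun h => hef (by rw [h])
    have := hp i j hij (share_meet i j hv)
    simpa using this
  · intro hr
    obtain ⟨f, hf, hall⟩ := map_of _ hr
    obtain ⟨p, hp, q, hq, hne, heq⟩ := hn f hf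
    refine hall p hp q hq hne ?_
    have e1 : ∀ i, edE.symm (ed i) = i := fun i => edE.symm_apply_apply i
    simp only [e1]
    exact heq

theorem seven : 7 ∈ K K5 house := by
  refine mem_K_of (by norm_num) d7 (by decide) (by decide) (by decide +kernel)

theorem five : 5 ∈ K K5 house := by
  refine mem_K_of (by norm_num) d5 (by decide) (by decide) (by decide +kernel)

/-- `K(K₅, house) = {5, 7}`; so `K(G,H)` need not be an interval. -/
theorem result :
    K (⊤ : SimpleGraph (Fin 5)) house = {5, 7} ∧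
    ¬ ∀ (V W : Type) [Fintype V] [Fintype W] (G : SimpleGraph V) (H : SimpleGraph W),
      IsIntervalSet (K G H) := by
  have h : K (⊤ : SimpleGraph (Fin 5)) house = {5, 7} := by
    apply Set.Subset.antisymm
    · rintro k ⟨-, c, hs', hc, hn⟩
      rcases main c hs' hc hn with h | h
      · simp [h]
      · simp [h]
    · intro k hk
      simp only [Set.mem_insert_iff, Set.mem_singleton_iff] at hk
      rcases hk with rfl | rfl
      · exact five
      · exact seven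
  refine ⟨h, fun hall => ?_⟩
  have h6 := hall (Fin 5) (Fin 5) ⊤ house 5 6 7 (by norm_num) (by norm_num)
    (by rw [h]; simp) (by rw [h]; simp)
  rw [h] at h6
  simp at h6

end Pool.Agent.Results.MP_bfacb1_co.HouseGap
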